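import Pool.Agent.H.MP_0c3956_an.A

namespace Pool.Agent.Results.MP_0c3956_an.No

open Pool.Agent.H.MP_28fd2b_an

theorem result (S : Set ℕ) (L : ℕ) (hS : ∀ n, 1 ≤ n → ∃ s ∈ S, n ≤ s ∧ s < n + L) :
    ¬ WIS 2 S := by
  refine Pool.Agent.H.MP_0c3956_an.main (m := L) fun a => ?_
  obtain ⟨s, h1, h2, h3⟩ := hS (a + 1) (by omega)
  obtain ⟨j, rfl⟩ := Nat.exists_eq_add_of_le h2
  exact ⟨j, by omega, h1⟩

end Pool.Agent.Results.MP_0c3956_an.No
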